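import Pool.Agent.Lib.K65.Et
import Pool.Agent.Lib.EXS.B_RV

/-! The theorem of Hörmander on the local models of a log resolution. -/

open scoped Classical Topology ContDiff ComplexOrder Matrix ENNReal
open Set MeasureTheory Complex Metric Filter

set_option linter.unusedSectionVars false

noncomputable section

namespace Pool.Agent.Lib.K65

open Pool.Agent.Lib.SV (E)
open Pool.Agent.Lib.HS32 Pool.Agent.Lib.EX Pool.Agent.Lib.ZQ
open Pool.Agent.Lib.EXS (off)
open Pool.Agent.Lib.EXS.K32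
open Pool.Agent.Lib.ZL (IsEta)

variable {n : ℕ} {M : Mf n} {ι : Type} [Fintype ι] [DecidableEq ι] {D : Ad M ι}
  {μ : Measure M.X}

/-- The part of a local model over the polydisc of radius `r`. -/
def WB {a : ι → ℕ} {ex : Set ι} (B : Bl D a ex) (r : ℝ) : Set M.X := {x | x ∈ B.W ∧ ‖B.p x‖ < r}

theorem WB_open {a : ι → ℕ} {ex : Set ι} (B : Bl D a ex) (r : ℝ) : IsOpen (WB B r) :=
  (on_cont fun d z hz hw =>
    (B.phol d z hz hw).self_of_nhds.continuousAt).norm.isOpen_inter_preimage B.opn isOpen_Iio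

section su

variable {R : Rc D} {B : Bl D R.a R.ex} {t : ℝ} {P : ι → ℤ} (S : Su R B t P) {d : D.A} {z : E n}

theorem su_H (hg : ∀ i, S.g i ≠ 0) (hz : z ∈ B2 n) (hw : (D.e d).symm z ∈ B.W)
    (h : D.rd S.j d z ≠ 0) : (HolN (D.rd S.H d) z ∧ D.rd S.H d z ≠ 0) ∧
      normSq (jm (D.rd S.q d) z).det * normSq (D.rd S.H d z) ^ (1 / R.m : ℝ) =
        normSq (R.w d z) ^ (1 / R.m : ℝ) * xr (D.c d) (fun i => R.k i / R.m) z := by
  obtain ⟨h1, h2⟩ := S.j_ne hz hw h
  have p := normSq_pos.2 h1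
  refine ⟨⟨hol_congr ?_ ((on_ev B.opn hz hw).mono fun y hy => S.hH d y hy.1 hy.2),
    (div_ne_zero_iff.1 h).2⟩, ?_⟩
  · filter_upwards [Su.w_hol (R := R) (d := d) hz, xm_hol (K := R.k) fun i _ => h2 i (hg i),
      S.det_hol hz hw, (S.det_hol hz hw).self_of_nhds.continuousAt.eventually_ne h1] with
      y b1 b2 b3 b4 using (b1.fun_mul b2).fun_mul ((b3.fun_pow R.m).fun_inv (pow_ne_zero _ b4))
  · rw [S.hH d z hz hw, map_div₀, map_mul, map_pow,
      Real.div_rpow (mul_nonneg (normSq_nonneg _) (normSq_nonneg _)) (pow_nonneg p.le _),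
      Real.mul_rpow (normSq_nonneg _) (normSq_nonneg _), ZL.HQ.xm_root, one_div,
      Real.pow_rpow_inv_natCast p.le R.m0.ne', mul_div_cancel₀ _ p.ne']

theorem su_ext {U O : Set M.X} (hU : IsOpen U) (h1 : U ⊆ B.W ∩ off D)
    (hO : ∀ x ∈ U, S.j x ≠ 0 ↔ x ∈ O)
    (nz : D.On B.W fun d z => ¬D.rd S.j d =ᶠ[𝓝 z] 0) (hμ : IsEta D R.k R.m R.w μ)
    (ph : M.X → ℝ) (Γ F : M.X → ℂ) (c1 : ContinuousOn ph U) (c2 : ContinuousOn Γ U)
    (hF : D.On O fun d z => DifferentiableAt ℂ (D.rd F d) z)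
    (fin : ∫⁻ x in U, ENNReal.ofReal (normSq (Γ x - F x) * Real.exp (-ph x)) ∂μ ≠ ⊤) :
    ∃ G : M.X → ℂ, (D.On U fun d z => HolN (D.rd G d) z) ∧ EqOn G F O := by
  refine ⟨fun x => limUnder (𝓝[O] x) F, fun d z hz hw => ?_, fun x hx => ?_⟩
  swap
  · have : (𝓝[O] x).NeBot := mem_closure_iff_nhdsWithin_neBot.1 (subset_closure hx)
    exact (on_cont (fun d z hz hw => (hF d z hz hw).continuousAt) x hx).tendsto.limUnder_eq
  have ho : IsOpen {y | y ∈ B2 n ∧ (D.e d).symm y ∈ U} :=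
    isOpen_iff_mem_nhds.2 fun y hy => on_ev hU hy.1 hy.2
  rw [← lintegral_indicator hU.measurableSet] at fin
  have fi := ne_top_of_le_ne_top fin (setLIntegral_le_lintegral (D.e d).source _)
  rw [hμ d] at fi
  obtain ⟨g, g1, g2⟩ := SV.H85.ext_sq volume (f := D.rd F d) (j := D.rd S.j d) ho
    (fun y hy => (S.j_hol hy.1 (h1 hy.2).1).self_of_nhds.differentiableWithinAt)
    (fun y hy => nz d y hy.1 (h1 hy.2).1)
    (fun y hy => (hF d y hy.1.1 ((hO _ hy.1.2).1 hy.2)).differentiableWithinAt) fun y hy => by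
      have cs := (D.e d).continuousAt_symm (tg hy.1)
      have of : ∀ u ∈ {y | y ∈ B2 n ∧ (D.e d).symm y ∈ U}, Off (D.c d) u := fun u hu =>
        (off_symm D hu.1).1 (h1 hu.2).2
      obtain ⟨V, a, b, v1, v2, v3, v4, v5, v6⟩ := locb (μ := volume) (g := D.rd Γ d)
        (δ := fun u => normSq (R.w d u) ^ (1 / R.m : ℝ) * xr (D.c d) (fun i => R.k i / R.m) u *
          Real.exp (-ph ((D.e d).symm u)))
        ((((continuous_normSq.continuousAt.comp (R.whol d y hy.1).continuousAt).rpow_const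
          (Or.inr (by positivity))).mul (MON.cd_xr _ (of y hy)).continuousAt).mul
          ((c1.continuousAt (hU.mem_nhds hy.2)).comp cs).neg.rexp)
        ((c2.continuousAt (hU.mem_nhds hy.2)).comp cs)
        (mul_pos (mul_pos (Real.rpow_pos_of_pos (normSq_pos.2 (R.wne d y hy.1)) _)
          (MON.xr_pos _ (of y hy))) (Real.exp_pos _)) (ho.mem_nhds hy)
      refine ⟨V, v1.mem_nhds v2, ne_top_of_le_ne_top (ENNReal.add_ne_top.2
        ⟨ENNReal.mul_ne_top v4 (ne_top_of_le_ne_top fi ?_), ENNReal.mul_ne_top v5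
          ((measure_mono fun u hu => (v3 hu).1).trans_lt measure_ball_lt_top).ne⟩)
        ((lintegral_mono_set fun u hu => hu.1).trans (v6 _))⟩
      refine (setLIntegral_mono_ae' v1.measurableSet (ae_of_all _ fun u hu => ?_)).trans
        (lintegral_mono_set fun u hu => (v3 hu).1)
      rw [indicator_of_mem (v3 hu).2, ← ENNReal.ofReal_mul (mul_nonneg
        (Real.rpow_nonneg (normSq_nonneg _) _) (MON.xr_pos _ (of u (v3 hu))).le), mul_assoc,
        mul_comm (Real.exp _)]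
      rfl
  have hz' : z ∈ {y | y ∈ B2 n ∧ (D.e d).symm y ∈ U} := ⟨hz, hw⟩
  refine hol_congr (f := g) ((ho.eventually_mem hz').mono fun y hy =>
    g1.differentiableAt (ho.mem_nhds hy)) ((ho.eventually_mem hz').mono fun y hy => ?_)
  exact lim_eq (tg hy.1) (((not_eventually.1 (nz d y hy.1 (h1 hy.2).1)).and_eventually
    (ho.eventually_mem hy)).mono fun u hu => (hO _ hu.2.2).1 hu.1)
    (g1.differentiableAt (ho.mem_nhds hy)).continuousAt
    ((ho.eventually_mem hy).mono fun u hu h0 => (g2 u hu ((hO _ hu.2).2 h0)).symm)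

end su

theorem ex_et [M.Cpt] {a : ι → ℕ} {ex : Set ι} (B : Bl D a ex) {k : ι → ℤ} {m : ℕ}
    {w : D.A → E n → ℂ} (m0 : 0 < m) (whol : D.All fun b z => DifferentiableAt ℂ (w b) z)
    (wne : D.All fun b z => w b z ≠ 0)
    (wc : D.Ov fun b d x => w d (D.e d x) = w b (D.e b x) * D.um k b d x * (D.J b d x).det ^ m)
    (hk : ∀ i, 0 < a i ∨ i ∈ ex ∨ k i < 0) (hμ : IsEta D k m w μ) {r : ℝ} (hr : r ≤ 1) :
    Nonempty (Et D μ (WB B r ∩ off D)) := by
  have hU := (WB_open B r).inter (off_open D)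
  rcases B.W.eq_empty_or_nonempty with h | h
  · have e : WB B r ∩ off D = ∅ := eq_empty_of_forall_notMem fun x hx => (h ▸ hx.1.1 : x ∈ ∅)
    have et : M.All fun e z => e.symm z ∈ (∅ : Set M.X) → HolN ((0 : M.X → E n) ∘ e.symm) z ∧
        (jm ((0 : M.X → E n) ∘ e.symm) z).det ≠ 0 := fun _ _ _ _ h => h.elim
    rw [e]
    refine ⟨⟨∅, 0, 0, 0, 0, isOpen_empty, isOpen_empty, Subset.rfl, et, fun _ _ _ h => h.elim, ?_,
      fun _ _ _ _ h => h.elim, fun _ => by simp, fun _ _ F _ _ _ _ =>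
        ⟨F, fun _ _ _ h => h.elim, fun _ _ => rfl⟩⟩⟩
    have h1 := rm_off isOpen_empty et
    rw [compl_empty, Measure.measure_univ_eq_zero] at h1
    rw [h1, Measure.restrict_empty, withDensity_zero_left]
  let R : Rc D := ⟨a, k, m, w, ex, m0, whol, wne, wc, fun i h1 h2 =>
    (((hk i).resolve_left h1.not_gt).resolve_left h2).le⟩
  obtain ⟨S, y₀, h0, h1⟩ := ex_su R B 0 (fun _ => rfl) h
  have hg : ∀ i, S.g i ≠ 0 := fun i hi => by
    obtain ⟨b1, b2, b3⟩ := (S.gz i).1 hi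
    exact (hk i).elim b1.not_gt fun h => h.elim (fun h => (B.epos i h).ne' b2) fun h => h.ne b3
  have jh : D.On B.W fun d z => HolN (D.rd S.j d) z := fun _ _ => S.j_hol
  have cj : ContinuousOn S.j B.W := on_cont fun d z hz hw =>
    (jh d z hz hw).self_of_nhds.continuousAt
  have hO : IsOpen {y | y ∈ WB B r ∧ S.j y ≠ 0} :=
    (cj.mono fun x hx => hx.1).isOpen_inter_preimage (WB_open B r) isOpen_ne
  have jn := fun d y (hd : y ∈ (D.e d).source) (hy : y ∈ B.W) (h : S.j y ≠ 0) =>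
    on_at (p := fun d z => D.rd S.j d z ≠ 0 → _) (fun d z hz hw => S.j_ne hz hw) hd hy
      (by rwa [EXS.GLU.rd_e _ hd])
  have sub : {y | y ∈ WB B r ∧ S.j y ≠ 0} ⊆ WB B r ∩ off D := fun y hy =>
    ⟨hy.1, fun d hd i => (jn d y hd hy.1.1 hy.2).2 i (hg i)⟩
  have key : M.All fun e z => e.symm z ∈ {y | y ∈ WB B r ∧ S.j y ≠ 0} → HolN (B.p ∘ e.symm) z ∧
      HolN (S.q ∘ e.symm) z ∧ (jm (S.q ∘ e.symm) z).det ≠ 0 ∧
      HolN ((fun y => (S.j y)⁻¹) ∘ e.symm) z := Mf.allOn_of_source fun e he y hy ho => by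
    rw [e.left_inv hy] at ho
    obtain ⟨d, hd⟩ := ex_ch D y
    have h3 := on_at S.hq hd ho.1.1
    have h4 := on_at jh hd ho.1.1
    refine ⟨hol_tr (D.mem d) he hd hy (on_at B.phol hd ho.1.1), hol_tr (D.mem d) he hd hy h3, ?_,
      hol_tr (D.mem d) he hd hy ?_⟩
    · rw [jm_tr (D.mem d) he hd hy h3]
      exact mul_ne_zero (jn d y hd ho.1.1 ho.2).1 ((mTR n M).2.1 _ (D.mem d) e he y hd hy).2.1
    · filter_upwards [h4, h4.self_of_nhds.continuousAt.eventually_ne (y := 0)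
        (by rw [EXS.GLU.rd_e _ hd]; exact ho.2)] with w a b using a.inv b
  have et : M.All fun e z => e.symm z ∈ {y | y ∈ WB B r ∧ S.j y ≠ 0} →
      HolN (S.q ∘ e.symm) z ∧ (jm (S.q ∘ e.symm) z).det ≠ 0 := fun e he z hz ho =>
    ⟨(key e he z hz ho).2.1, (key e he z hz ho).2.2.1⟩
  obtain ⟨ex', x1, x2⟩ := exh (W := B.W) (ρ := r) (fun r' h => B.cpt r' (h.trans_le hr))
    (fun y hy => hy.1) key fun y hy h1 h2 => by
      have h3 : S.j y = 0 := by_contra fun h => h2 ⟨⟨hy, h1⟩, h⟩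
      simp only [map_inv₀]
      refine tendsto_inv_nhdsGT_zero.comp (tendsto_nhdsWithin_iff.2 ⟨?_, ?_⟩)
      · have := (continuous_normSq.continuousAt.comp (cj.continuousAt (B.opn.mem_nhds hy))).tendsto
        rw [Function.comp_apply, h3, map_zero] at this
        exact this.mono_left nhdsWithin_le_nhds
      · exact eventually_of_mem self_mem_nhdsWithin fun w hw => normSq_pos.2 hw.2
  have nz : D.On B.W fun d z => ¬D.rd S.j d =ᶠ[𝓝 z] 0 := fun d z hz hw =>
    not_zero B.con (fun x hx => let ⟨_, hd⟩ := ex_ch D x; ⟨_, hd, on_at jh hd hx⟩) h0 h1 (tg hz) hw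
  have hH : D.On {y | y ∈ WB B r ∧ S.j y ≠ 0} fun d z =>
      HolN (D.rd S.H d) z ∧ D.rd S.H d z ≠ 0 := fun d z hz hw => (su_H S hg hz hw.1.1 hw.2).1
  refine ⟨⟨_, S.q, S.H, 1 / m, ex', hO, hU, sub, et, hH, ?_, x1, x2, su_ext S hU
    (fun x hx => ⟨hx.1.1, hx.2⟩) (fun x hx => ⟨fun h => ⟨hx.1, h⟩, fun h => h.2⟩) nz hμ⟩⟩
  have a0 : ∀ᵐ x ∂SV.rm S.q {y | y ∈ WB B r ∧ S.j y ≠ 0}, x ∈ {y | y ∈ WB B r ∧ S.j y ≠ 0} :=
    rm_off hO et
  have ρm : AEMeasurable (fun x => ENNReal.ofReal (normSq (S.H x) ^ (1 / m : ℝ)))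
      (SV.rm S.q {y | y ∈ WB B r ∧ S.j y ≠ 0}) := by
    rw [← Measure.restrict_eq_self_of_ae_mem a0]
    exact (((continuous_normSq.comp_continuousOn (on_cont fun d z hz hw =>
      (hH d z hz hw).1.self_of_nhds.continuousAt)).rpow_const fun _ _ =>
        Or.inr (by positivity)).aemeasurable hO.measurableSet).ennreal_ofReal
  refine Measure.ext_of_iUnion_eq_univ (s := fun d => (D.e d).source)
    (eq_univ_of_forall fun x => mem_iUnion.2 (ex_ch D x)) fun d =>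
      Measure.ext_of_lintegral _ fun F _ => ?_
  have ho := hO.inter (D.e d).open_source
  have m1 := ((D.e d).isOpen_inter_preimage_symm ho).measurableSet
  have zn := zero_null (U := {y | y ∈ B2 n ∧ (D.e d).symm y ∈ B.W}) (f := D.rd S.j d)
    (isOpen_iff_mem_nhds.2 fun y hy => on_ev B.opn hy.1 hy.2)
    (fun z hz => (jh d z hz.1 hz.2).self_of_nhds.differentiableWithinAt) fun z hz => nz d z hz.1 hz.2
  rw [Measure.restrict_comm (D.e d).open_source.measurableSet,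
    ← lintegral_indicator hU.measurableSet, hμ d,
    setLIntegral_withDensity_eq_setLIntegral_mul_non_measurable₀ _ ρm.restrict _
      (D.e d).open_source.measurableSet (ae_of_all _ fun _ => ENNReal.ofReal_lt_top),
    setLIntegral_congr (s := (D.e d).source) (t := {y | y ∈ WB B r ∧ S.j y ≠ 0} ∩ (D.e d).source)
      (a0.mono fun x hx => propext ⟨fun h => ⟨hx, h⟩, fun h => h.2⟩),
    rm_chart hO et (D.mem d) ho Subset.rfl, ← lintegral_indicator m1,
    ← lintegral_indicator (s := B2 n) measurableSet_ball]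
  refine lintegral_congr_ae ((measure_eq_zero_iff_ae_notMem.1 zn).mono fun z hz => ?_)
  by_cases h : z ∈ (D.e d).target ∩ (D.e d).symm ⁻¹' ({y | y ∈ WB B r ∧ S.j y ≠ 0} ∩ (D.e d).source)
  · have h1 : z ∈ B2 n := D.tgt d ▸ h.1
    rw [indicator_of_mem h, indicator_of_mem h1, indicator_of_mem (sub h.2.1)]
    refine (congrArg (ENNReal.ofReal · * _) (su_H S hg h1 h.2.1.1.1 h.2.1.2).2.symm).trans ?_
    rw [ENNReal.ofReal_mul (normSq_nonneg _), mul_assoc]
    rfl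
  · rw [indicator_of_notMem h]
    refine indicator_apply_eq_zero.2 fun h1 => ?_
    rw [indicator_of_notMem fun h2 => h ⟨tg h1, ⟨h2.1, fun h3 => hz ⟨⟨h1, h2.1.1⟩, h3⟩⟩,
      TRF.mem_src D h1⟩, mul_zero]

end Pool.Agent.Lib.K65
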