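import Pool.Agent.Lib.ZL.B_HQ

/-! The theorem of Hörmander on open sets with étale coordinates off a thin set, and a version
for approximate solutions on several open sets. -/

open scoped Classical Topology ContDiff ComplexOrder Matrix ENNReal
open Set MeasureTheory Complex Metric Filter

set_option linter.unusedSectionVars false

noncomputable section

namespace Pool.Agent.Lib.K65

open Pool.Agent.Lib.SV (E)
open Pool.Agent.Lib.HS32 Pool.Agent.Lib.EX Pool.Agent.Lib.ZQ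
open Pool.Agent.Lib.EXS.K32

section gen

variable {X : Type} [TopologicalSpace X] [MeasurableSpace X] [OpensMeasurableSpace X]
  {μ : Measure X}

theorem fatou {S : ℕ → Set X} {O : Set X} {g : ℕ → X → ℝ} {G : X → ℝ} {B : ℝ≥0∞} (hO : IsOpen O)
    (hS : ∀ a, IsOpen (S a)) (hc : ∀ a, ContinuousOn (g a) (S a))
    (hl : ∀ x ∈ O, (∀ᶠ a in atTop, x ∈ S a) ∧ Tendsto (fun a => g a x) atTop (𝓝 (G x)))
    (hb : ∀ a, ∫⁻ x in S a, ENNReal.ofReal (g a x) ∂μ ≤ B) :
    ∫⁻ x in O, ENNReal.ofReal (G x) ∂μ ≤ B := by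
  have h := lintegral_liminf_le' (μ := μ) (u := atTop)
    (f := fun a => (S a).indicator fun x => ENNReal.ofReal (g a x)) fun a =>
      (aemeasurable_indicator_iff (hS a).measurableSet).2
        ((hc a).aemeasurable (hS a).measurableSet).ennreal_ofReal
  refine le_trans ?_ (h.trans (liminf_le_of_frequently_le' (.of_forall fun a => ?_)))
  · rw [← lintegral_indicator hO.measurableSet]
    refine lintegral_mono (indicator_le' (fun x hx => ?_) fun _ _ => zero_le)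
    exact ((ENNReal.tendsto_ofReal (hl x hx).2).congr' ((hl x hx).1.mono fun a ha =>
      (indicator_of_mem ha fun x => ENNReal.ofReal (g a x)).symm)).liminf_eq.ge
  · rw [lintegral_indicator (hS a).measurableSet]
    exact hb a

theorem tri {S : Set X} (hS : IsOpen S) {f g h : X → ℂ} {u v w : X → ℝ} {A B : ℝ≥0∞}
    (hc : ContinuousOn (fun x => normSq (g x - f x) * u x) S)
    (hw : ∀ x ∈ S, 0 ≤ w x ∧ w x ≤ u x ∧ w x ≤ v x)
    (h1 : ∫⁻ x in S, ENNReal.ofReal (normSq (g x - f x) * u x) ∂μ ≤ A)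
    (h2 : ∫⁻ x in S, ENNReal.ofReal (normSq (g x - h x) * v x) ∂μ ≤ B) :
    ∫⁻ x in S, ENNReal.ofReal (normSq (f x - h x) * w x) ∂μ ≤ 2 * A + 2 * B := by
  refine le_trans ?_ (add_le_add (mul_le_mul_right h1 2) (mul_le_mul_right h2 2))
  rw [← mul_add, ← lintegral_add_left' (hc.aemeasurable hS.measurableSet).ennreal_ofReal,
    ← lintegral_const_mul' _ _ ENNReal.ofNat_ne_top]
  refine setLIntegral_mono_ae' hS.measurableSet (ae_of_all _ fun x hx => ?_)
  obtain ⟨a, b, c⟩ := hw x hx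
  rw [← ENNReal.ofReal_add (mul_nonneg (normSq_nonneg _) (a.trans b))
    (mul_nonneg (normSq_nonneg _) (a.trans c)), ← ENNReal.ofReal_ofNat,
    ← ENNReal.ofReal_mul two_pos.le]
  refine ENNReal.ofReal_le_ofReal ?_
  have e : normSq (f x - h x) ≤ 2 * (normSq (g x - f x) + normSq (g x - h x)) := by
    simp only [normSq_apply, sub_re, sub_im]
    nlinarith [sq_nonneg (2 * (g x).re - (f x).re - (h x).re),
      sq_nonneg (2 * (g x).im - (f x).im - (h x).im)]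
  nlinarith [mul_le_mul_of_nonneg_right e a, mul_le_mul_of_nonneg_left b (normSq_nonneg (g x - f x)),
    mul_le_mul_of_nonneg_left c (normSq_nonneg (g x - h x))]

theorem locb {δ : X → ℝ} {g : X → ℂ} {y : X} (h1 : ContinuousAt δ y) (h2 : ContinuousAt g y)
    (h0 : 0 < δ y) {N : Set X} (hN : N ∈ 𝓝 y) : ∃ (V : Set X) (a b : ℝ≥0∞), IsOpen V ∧ y ∈ V ∧
      V ⊆ N ∧ a ≠ ⊤ ∧ b ≠ ⊤ ∧ ∀ f : X → ℂ, ∫⁻ x in V, ENNReal.ofReal (‖f x‖ ^ 2) ∂μ ≤
        a * ∫⁻ x in V, ENNReal.ofReal (δ x * normSq (g x - f x)) ∂μ + b * μ V := by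
  obtain ⟨V, v1, v2, v3⟩ := _root_.eventually_nhds_iff.1 ((h1.eventually (lt_mem_nhds
    (half_lt_self h0))).and ((h2.norm.eventually (gt_mem_nhds (lt_add_one _))).and hN))
  have c0 := half_pos h0
  generalize δ y / 2 = c at v1 c0
  generalize ‖g y‖ + 1 = B at v1
  refine ⟨V, ENNReal.ofReal (2 / c), ENNReal.ofReal (2 * B ^ 2), v2, v3, fun x hx => (v1 x hx).2.2,
    ENNReal.ofReal_ne_top, ENNReal.ofReal_ne_top, fun f => ?_⟩
  rw [← lintegral_const_mul' _ _ ENNReal.ofReal_ne_top, ← setLIntegral_const,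
    ← lintegral_add_right _ measurable_const]
  refine setLIntegral_mono_ae' v2.measurableSet (ae_of_all _ fun u hu => ?_)
  obtain ⟨u1, u2, -⟩ := v1 u hu
  rw [← ENNReal.ofReal_mul (by positivity)]
  refine le_trans (ENNReal.ofReal_le_ofReal ?_) ENNReal.ofReal_add_le
  have h7 : ‖f u‖ ≤ ‖g u‖ + ‖g u - f u‖ := norm_le_norm_add_norm_sub (g u) (f u)
  rw [normSq_eq_norm_sq]
  generalize ‖g u - f u‖ = t at h7 ⊢
  have h8 : 2 * t ^ 2 ≤ 2 / c * (δ u * t ^ 2) := by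
    rw [div_mul_eq_mul_div, le_div_iff₀ c0, mul_assoc, mul_comm _ c]
    exact mul_le_mul_of_nonneg_left (mul_le_mul_of_nonneg_right u1.le (sq_nonneg _)) two_pos.le
  have h9 := pow_le_pow_left₀ (norm_nonneg _) h7 2
  have h10 := pow_le_pow_left₀ (norm_nonneg _) u2.le 2
  nlinarith [sq_nonneg (‖g u‖ - t)]

theorem common {κ : Type} [Finite κ] {P : κ → (ℕ → ℕ) → Prop}
    (h1 : ∀ b (s : ℕ → ℕ), StrictMono s → ∃ t : ℕ → ℕ, StrictMono t ∧ P b (s ∘ t))
    (h2 : ∀ b (s t : ℕ → ℕ), StrictMono t → P b s → P b (s ∘ t)) :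
    ∃ s, StrictMono s ∧ ∀ b, P b s := by
  suffices h : ∀ T : Set κ, T.Finite → ∃ s, StrictMono s ∧ ∀ b ∈ T, P b s from
    (h _ finite_univ).imp fun s h => ⟨h.1, fun b => h.2 b trivial⟩
  intro T hT
  induction T, hT using Set.Finite.induction_on with
  | empty => exact ⟨id, strictMono_id, fun _ h => h.elim⟩
  | @insert b T _ _ ih =>
    obtain ⟨s, s1, s2⟩ := ih
    obtain ⟨t, t1, t2⟩ := h1 b s s1
    exact ⟨_, s1.comp t1, forall_mem_insert.2 ⟨t2, fun c hc => h2 c s t t1 (s2 c hc)⟩⟩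

end gen

variable {n : ℕ} {M : Mf n} {ι : Type} [Fintype ι] [DecidableEq ι] {D : Ad M ι}
  {μ : Measure M.X} {U : Set M.X}

theorem dif_tr {e e' : M.Ch} {x : M.X} {f : M.X → ℂ} (he : e ∈ M.C) (he' : e' ∈ M.C)
    (hx : x ∈ e.source) (hx' : x ∈ e'.source) (h : DifferentiableAt ℂ (f ∘ e.symm) (e x)) :
    DifferentiableAt ℂ (f ∘ e'.symm) (e' x) :=
  (DifferentiableAt.comp (e' x) (g := f ∘ e.symm) (f := e ∘ e'.symm)
    (by rwa [Function.comp_apply, e'.left_inv hx'])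
    ((mTR n M).2.1 e he e' he' x hx hx').1.self_of_nhds).congr_of_eventuallyEq (ev_tr f hx hx')

theorem on_cont {F : Type} [TopologicalSpace F] {f : M.X → F}
    (h : D.On U fun d z => ContinuousAt (D.rd f d) z) : ContinuousOn f U := fun x hx =>
  let ⟨_, hd⟩ := ex_ch D x
  (cont_of hd (on_at h hd hx)).continuousWithinAt

/-- The weight, the function and the bound of its antilinear derivative. -/
def Hy (D : Ad M ι) (U : Set M.X) (ph β : M.X → ℝ) (Γ : M.X → ℂ) : Prop :=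
  D.On U fun d z => ContDiffAt ℝ ∞ (D.rd ph d) z ∧ ContDiffAt ℝ ∞ (D.rd Γ d) z ∧
    (∀ v, 0 ≤ lv (D.rd ph d) z v) ∧ 0 ≤ D.rd β d z ∧ ∀ v : E n,
      normSq (∑ i, star (v i) * dzb i (D.rd Γ d) z) ≤ D.rd β d z * lv (D.rd ph d) z v

/-- An open set `U`, a Stein open subset `O` of full measure, and the extension property. -/
structure Et (D : Ad M ι) (μ : Measure M.X) (U : Set M.X) where
  O : Set M.X
  q : M.X → E n
  H : M.X → ℂ
  s : ℝ
  ex : M.X → ℝ
  opn : IsOpen O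
  opU : IsOpen U
  sub : O ⊆ U
  et : M.All fun e z => e.symm z ∈ O → HolN (q ∘ e.symm) z ∧ (jm (q ∘ e.symm) z).det ≠ 0
  hH : D.On O fun d z => HolN (D.rd H d) z ∧ D.rd H d z ≠ 0
  mu : μ.restrict U = (SV.rm q O).withDensity fun x => ENNReal.ofReal (normSq (H x) ^ s)
  exs : M.All fun e z => e.symm z ∈ O → ContDiffAt ℝ ∞ (ex ∘ e.symm) z ∧ (M.hs ex e z).PosDef
  exc : ∀ a : ℝ, IsCompact {y | y ∈ O ∧ ex y ≤ a}
  ext : ∀ (ph : M.X → ℝ) (Γ F : M.X → ℂ), ContinuousOn ph U → ContinuousOn Γ U →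
    (D.On O fun d z => DifferentiableAt ℂ (D.rd F d) z) →
    ∫⁻ x in U, ENNReal.ofReal (normSq (Γ x - F x) * Real.exp (-ph x)) ∂μ ≠ ⊤ →
    ∃ G : M.X → ℂ, (D.On U fun d z => HolN (D.rd G d) z) ∧ EqOn G F O

namespace Et

variable (T : Et D μ U)

theorem H_pos {x : M.X} (hx : x ∈ T.O) : 0 < normSq (T.H x) := by
  obtain ⟨d, hd⟩ := ex_ch D x
  exact normSq_pos.2 (EXS.GLU.rd_e T.H hd ▸ (on_at T.hH hd hx).2)

theorem ρ_cont : ContinuousOn (fun x => normSq (T.H x) ^ T.s) T.O :=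
  (continuous_normSq.comp_continuousOn (on_cont fun d z hz hw =>
    (T.hH d z hz hw).1.self_of_nhds.continuousAt)).rpow_const fun _ hx => Or.inl (T.H_pos hx).ne'

theorem ex_cont : ContinuousOn T.ex T.O := on_cont (D := D) fun d z hz hw =>
  (T.exs _ (D.mem d) z (tg hz) hw).1.continuousAt

/-- The sublevel sets. -/
def L (a : ℝ) : Set M.X := {y | y ∈ T.O ∧ T.ex y < a}

theorem L_open (a : ℝ) : IsOpen (T.L a) := T.ex_cont.isOpen_inter_preimage T.opn isOpen_Iio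

theorem L_ev {y : M.X} (hy : y ∈ T.O) : ∃ V ∈ 𝓝 y, ∀ᶠ a : ℕ in atTop, V ⊆ T.L a :=
  ⟨_, (T.L_open _).mem_nhds ⟨hy, lt_add_one _⟩,
    (tendsto_natCast_atTop_atTop.eventually_ge_atTop (T.ex y + 1)).mono
      fun _ ha _ hx => ⟨hx.1, hx.2.trans_le ha⟩⟩

variable [M.Cpt]

theorem ae0 : ∀ᵐ x ∂SV.rm T.q T.O, x ∈ T.O := rm_off T.opn T.et

theorem ae : ∀ᵐ x ∂μ.restrict U, x ∈ T.O := by
  rw [T.mu]
  exact (withDensity_absolutelyContinuous _ _).ae_le T.ae0

theorem ρ_meas : AEMeasurable (fun x => ENNReal.ofReal (normSq (T.H x) ^ T.s)) (SV.rm T.q T.O) := by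
  rw [← Measure.restrict_eq_self_of_ae_mem T.ae0]
  exact (T.ρ_cont.aemeasurable T.opn.measurableSet).ennreal_ofReal

theorem res {N : Set M.X} (hN : IsOpen N) (h : N ⊆ U) : μ.restrict N =
    ((SV.rm T.q T.O).restrict N).withDensity fun x => ENNReal.ofReal (normSq (T.H x) ^ T.s) := by
  rw [← restrict_withDensity hN.measurableSet, ← T.mu, Measure.restrict_restrict hN.measurableSet,
    inter_eq_left.2 h]

theorem lint {N : Set M.X} (hN : IsOpen N) (h : N ⊆ U) (F : M.X → ℝ) :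
    ∫⁻ x in N, ENNReal.ofReal (F x) ∂μ =
      ∫⁻ x in N, ENNReal.ofReal (normSq (T.H x) ^ T.s * F x) ∂SV.rm T.q T.O := by
  rw [T.res hN h, lintegral_withDensity_eq_lintegral_mul_non_measurable₀ _ T.ρ_meas.restrict
    (ae_of_all _ fun _ => ENNReal.ofReal_lt_top)]
  exact lintegral_congr fun x => (ENNReal.ofReal_mul (Real.rpow_nonneg (normSq_nonneg _) _)).symm

theorem solve {ph β : M.X → ℝ} {Γ : M.X → ℂ} (hm : AEMeasurable β (μ.restrict U))
    (h : Hy D U ph β Γ) (fin : ∫⁻ x in U, ENNReal.ofReal (β x * Real.exp (-ph x)) ∂μ ≠ ⊤) :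
    ∃ F : M.X → ℂ, (D.On T.O fun d z => DifferentiableAt ℂ (D.rd F d) z) ∧
      ∫⁻ x in U, ENNReal.ofReal (normSq (Γ x - F x) * Real.exp (-ph x)) ∂μ ≤
        10 * ∫⁻ x in U, ENNReal.ofReal (β x * Real.exp (-ph x)) ∂μ := by
  have cv : ∀ t : M.X → ℝ, ∫⁻ x in U, ENNReal.ofReal (t x * Real.exp (-ph x)) ∂μ =
      ∫⁻ x, ENNReal.ofReal (t x * Real.exp (-(ph x - T.s * Real.log (normSq (T.H x)))))
        ∂SV.rm T.q T.O := fun t => by
    rw [T.lint T.opU Subset.rfl,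
      Measure.restrict_eq_self_of_ae_mem (T.ae0.mono fun x hx => T.sub hx)]
    refine lintegral_congr_ae (T.ae0.mono fun x hx => congrArg _ ?_)
    rw [Real.rpow_def_of_pos (T.H_pos hx), neg_sub, sub_eq_add_neg, Real.exp_add, mul_left_comm,
      mul_comm T.s]
  have ac : SV.rm T.q T.O ≪ μ.restrict U := by
    rw [T.mu]
    exact withDensity_absolutelyContinuous' T.ρ_meas (T.ae0.mono fun x hx =>
      (ENNReal.ofReal_pos.2 (Real.rpow_pos_of_pos (T.H_pos hx) _)).ne')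
  rw [cv] at fin
  obtain ⟨F, f1, f2⟩ := horq (q := T.q) (ex := T.ex)
    (ph := fun x => ph x - T.s * Real.log (normSq (T.H x))) (h := β) (Γ := Γ) T.opn
    (Mf.allOn_of_source fun e he y hy ho => by
      have et := T.et.at he hy ho
      have xs := T.exs.at he hy ho
      rw [e.left_inv hy] at ho ⊢
      obtain ⟨d, hd⟩ := ex_ch D y
      obtain ⟨a1, a2⟩ := on_at T.hH hd ho
      obtain ⟨c1, c2, c3, c4, c5⟩ := on_at h hd (T.sub ho)
      rw [EXS.GLU.rd_e β hd] at c4 c5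
      obtain ⟨l1, l2⟩ := lv_log a1 a2
      have tr := (mTR n M).2.2.2.1
      have s2 := c1.sub (contDiffAt_const (c := T.s).mul l1)
      have e2 : ∀ v, lv (fun z => D.rd ph d z - T.s * Real.log (normSq (D.rd T.H d z)))
          (D.e d y) v = lv (D.rd ph d) (D.e d y) v := fun v => by
        rw [lv_sub c1 (contDiffAt_const.mul l1), lv_mul l1, l2, mul_zero, sub_zero]
      refine ⟨et.1, et.2, xs.1, (tr ℝ _).2.1 _ (D.mem d) e he y hd hy s2,
        (tr ℂ _).2.1 _ (D.mem d) e he y hd hy c2, xs.2, ?_, c4,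
        ZL.HQ.ineq_tr (D.mem d) he hd hy s2 c2 fun v => (c5 v).trans_eq (congrArg _ (e2 v).symm)⟩
      rw [lv_tr (u := fun x => ph x - T.s * Real.log (normSq (T.H x))) (D.mem d) he hd hy s2]
      exact (psd_of_lv s2 fun v => (c3 v).trans_eq (e2 v).symm).conjTranspose_mul_mul_same _)
    T.exc (hm.mono_ac ac) fin
  refine ⟨F, fun d z hz hw => f1 _ (D.mem d) z (tg hz) hw, ?_⟩
  rw [cv, cv]
  exact f2

include T in
/-- The theorem of Hörmander on `U`. -/
theorem hor {ph β : M.X → ℝ} {Γ : M.X → ℂ} (hm : AEMeasurable β (μ.restrict U))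
    (h : Hy D U ph β Γ) : ∃ F : M.X → ℂ, (D.On U fun d z => HolN (D.rd F d) z) ∧
      ∫⁻ x in U, ENNReal.ofReal (normSq (Γ x - F x) * Real.exp (-ph x)) ∂μ ≤
        10 * ∫⁻ x in U, ENNReal.ofReal (β x * Real.exp (-ph x)) ∂μ := by
  by_cases fin : ∫⁻ x in U, ENNReal.ofReal (β x * Real.exp (-ph x)) ∂μ = ⊤
  · exact ⟨0, fun d z _ _ => .of_forall fun y => differentiableAt_const (0 : ℂ), by
      rw [fin, ENNReal.mul_top (by norm_num)]
      exact le_top⟩
  obtain ⟨F, f1, f2⟩ := T.solve hm h fin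
  obtain ⟨G, g1, g2⟩ := T.ext ph Γ F (on_cont fun d z hz hw => (h d z hz hw).1.continuousAt)
    (on_cont fun d z hz hw => (h d z hz hw).2.1.continuousAt) f1
    (ne_top_of_le_ne_top (ENNReal.mul_ne_top ENNReal.ofNat_ne_top fin) f2)
  exact ⟨G, g1, (lintegral_congr_ae (T.ae.mono fun x hx => by rw [g2 hx])).trans_le f2⟩

/-- The data on a sublevel set. -/
def lvl (a : ℝ) : Et D μ (T.L a) where
  O := T.L a
  q := T.q
  H := T.H
  s := T.s
  ex y := T.ex y + (a - T.ex y)⁻¹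
  opn := T.L_open a
  opU := T.L_open a
  sub := Subset.rfl
  et e he z hz h := T.et e he z hz h.1
  hH d z hz h := T.hH d z hz h.1
  mu := by
    have := (mCOV n M).1
    let Q : SV.Dom n := { Y := M.X, p := T.q, W := T.O, rd := EXS.HORM.rd T.et T.opn }
    rw [T.res (T.L_open a) fun x hx => T.sub hx.1]
    exact congrArg (Measure.withDensity · _)
      ((SV.stRM n Q).2.2.2.2.2.1 _ (T.L_open a) fun x hx => hx.1).symm
  exs e he z hz h := by
    obtain ⟨h1, h2⟩ := T.exs e he z hz h.1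
    have h3 := (contDiffAt_const (c := a).sub h1).inv (sub_pos.2 h.2).ne'
    have p : ∀ v, v ≠ 0 → 0 < lv (T.ex ∘ e.symm) z v := fun v hv =>
      (Complex.lt_def.1 (h2.dotProduct_mulVec_pos hv)).1
    refine ⟨h1.add h3, pd_of_lv (h1.add h3) fun v hv => ?_⟩
    exact (add_pos_of_pos_of_nonneg (p v hv) (lv_inv h1 h.2 (p v hv).le)).trans_eq
      (lv_add h1 h3 v).symm
  exc c := by
    have hK := T.exc a
    have h := hK.of_isClosed_subset ((T.ex_cont.mono fun x hx => hx.1).preimage_isClosed_of_isClosed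
      hK.isClosed (isClosed_le (f := fun _ => (1 : ℝ)) (g := fun t => (c - t) * (a - t))
        continuous_const (by fun_prop))) inter_subset_left
    refine (congrArg IsCompact (Set.ext fun y => ⟨fun hy => ?_, fun hy => ?_⟩)).mp h
    · have h1 : 1 ≤ (c - T.ex y) * (a - T.ex y) := hy.2
      have h2 : T.ex y < a := lt_of_le_of_ne hy.1.2 fun h => by norm_num [h] at h1
      refine ⟨⟨hy.1.1, h2⟩, le_sub_iff_add_le'.1 ?_⟩
      rwa [inv_eq_one_div, div_le_iff₀ (sub_pos.2 h2)]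
    · refine ⟨⟨hy.1.1, hy.1.2.le⟩, ?_⟩
      have h1 := le_sub_iff_add_le'.2 hy.2
      rwa [inv_eq_one_div, div_le_iff₀ (sub_pos.2 hy.1.2)] at h1
  ext _ _ F _ _ h _ := ⟨F, fun d z hz hw =>
    (on_ev (T.L_open a) hz hw).mono fun y hy => h d y hy.1 hy.2, fun _ _ => rfl⟩

/-- The theorem of Montel. -/
theorem mont {S : ℕ → Set M.X} {F : ℕ → M.X → ℂ} {ph : M.X → ℝ} {Γ : M.X → ℂ} {C : ℝ≥0∞}
    (hC : C ≠ ⊤) (h1 : ContinuousOn ph U) (h2 : ContinuousOn Γ U)
    (hS : ∀ y ∈ T.O, ∃ V ∈ 𝓝 y, ∀ᶠ a in atTop, V ⊆ S a)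
    (hF : ∀ a, D.On (S a) fun d z => DifferentiableAt ℂ (D.rd (F a) d) z)
    (hb : ∀ a, ∫⁻ x in S a, ENNReal.ofReal (normSq (Γ x - F a x) * Real.exp (-ph x)) ∂μ ≤ C) :
    ∃ (G : M.X → ℂ) (s : ℕ → ℕ), StrictMono s ∧
      (D.On T.O fun d z => DifferentiableAt ℂ (D.rd G d) z) ∧
      ∀ y ∈ T.O, Tendsto (fun a => F (s a) y) atTop (𝓝 (G y)) := by
  have := (mCOV n M).1
  let Q : SV.Dom n := { Y := M.X, p := T.q, W := T.O, rd := EXS.HORM.rd T.et T.opn }
  obtain ⟨G, s, s1, s2⟩ := SV.stMON SV.stRM SV.stSUB SV.stWEI n Q F fun y hy => by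
    obtain ⟨V, v1, v2⟩ := hS y hy
    have hO := T.opn.mem_nhds hy
    have hU := T.opU.mem_nhds (T.sub hy)
    obtain ⟨K, k1, k2, k3⟩ := exists_compact_subset T.opn hy
    obtain ⟨N, a, b, n1, n2, n3, n4, n5, n6⟩ := locb (μ := SV.rm T.q T.O)
      (δ := fun x => normSq (T.H x) ^ T.s * Real.exp (-ph x))
      ((T.ρ_cont.continuousAt hO).mul (h1.continuousAt hU).neg.rexp) (h2.continuousAt hU)
      (mul_pos (Real.rpow_pos_of_pos (T.H_pos hy) _) (Real.exp_pos _))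
      (inter_mem v1 (mem_interior_iff_mem_nhds.1 k2))
    refine ⟨N, n1.mem_nhds n2, a * C + b * SV.rm T.q T.O K, ENNReal.add_ne_top.2
      ⟨ENNReal.mul_ne_top n4 hC, ENNReal.mul_ne_top n5 ((SV.stRM n Q).2.2.2.2.2.2.1 K k1 k3)⟩,
      v2.mono fun j hj => ⟨fun x hx => ?_, (n6 _).trans (add_le_add (mul_le_mul_right ?_ _)
        (mul_le_mul_right (measure_mono fun x hx => (n3 hx).2) _))⟩⟩
    · obtain ⟨c, c1, c2, -, c3⟩ := EXS.HORM.cht T.et T.opn (k3 (n3 hx).2) univ_mem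
      obtain ⟨d, hd⟩ := ex_ch D x
      refine (c3.hol_iff c2).2 ?_
      rw [c3.eq c2]
      exact dif_tr (D.mem d) c1 hd c2 (on_at (hF j) hd (hj (n3 hx).1))
    · refine le_trans ?_ ((lintegral_mono_set fun x hx => hj (n3 hx).1).trans (hb j))
      rw [T.lint n1 fun x hx => T.sub (k3 (n3 hx).2)]
      exact (lintegral_congr fun x => congrArg _ (by ring)).le
  refine ⟨G, s, s1, fun d z hz hw => ?_, fun y hy => (s2 y hy).2⟩
  obtain ⟨c, c1, c2, -, c3⟩ := EXS.HORM.cht T.et T.opn hw univ_mem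
  have h3 := (c3.hol_iff c2).1 (s2 _ hw).1
  rw [c3.eq c2] at h3
  have h4 := dif_tr c1 (D.mem d) c2 (TRF.mem_src D hz) h3
  rwa [TRF.rinv D hz] at h4

end Et

/-- Holomorphic functions from approximate solutions on compact sets. -/
theorem hqs [M.Cpt] {κ : Type} [Finite κ] {U : κ → Set M.X} (T : ∀ b, Et D μ (U b))
    {ph : κ → M.X → ℝ} {wt : M.X → ℝ} {Γ : M.X → ℂ} {η A : ℝ≥0∞} (hη : η ≠ ⊤) (hA : A ≠ ⊤)
    (hΓ : ∀ b, ContinuousOn Γ (U b)) (cp : ∀ b, ContinuousOn wt (U b))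
    (hwt : ∀ b, ∀ x ∈ U b, ph b x ≤ wt x)
    (hK : ∀ K : κ → Set M.X, (∀ b, IsCompact (K b) ∧ K b ⊆ U b) →
      ∃ (Φ : M.X → ℂ) (β : κ → M.X → ℝ), ∀ b, AEMeasurable (β b) (μ.restrict (U b)) ∧
        Hy D (U b) (ph b) (β b) Φ ∧
        ∫⁻ x in K b, ENNReal.ofReal (β b x * Real.exp (-ph b x)) ∂μ ≤ η ∧
        ∫⁻ x in K b, ENNReal.ofReal (normSq (Φ x - Γ x) * Real.exp (-wt x)) ∂μ ≤ A) :
    ∃ k : κ → M.X → ℂ, (∀ b, D.On (U b) fun d z => HolN (D.rd (k b) d) z) ∧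
      (∀ b, ∫⁻ x in U b, ENNReal.ofReal (normSq (Γ x - k b x) * Real.exp (-wt x)) ∂μ ≤
        2 * A + 20 * η) ∧
      ∀ b c, ∫⁻ x in U b ∩ U c, ENNReal.ofReal (normSq (k b x - k c x) * Real.exp (-wt x)) ∂μ ≤
        40 * η := by
  choose Φ β h using fun a : ℕ => hK (fun b => {y | y ∈ (T b).O ∧ (T b).ex y ≤ a}) fun b =>
    ⟨(T b).exc a, fun x hx => (T b).sub hx.1⟩
  have sL : ∀ b (a : ℕ), (T b).L a ⊆ U b := fun b a x hx => (T b).sub hx.1
  have sK : ∀ b (a : ℕ), (T b).L a ⊆ {y | y ∈ (T b).O ∧ (T b).ex y ≤ a} := fun b a x hx =>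
    ⟨hx.1, hx.2.le⟩
  have ce : ∀ b, ContinuousOn (fun x => Real.exp (-wt x)) (U b) := fun b => (cp b).neg.rexp
  have cΦ : ∀ a b, ContinuousOn (Φ a) (U b) := fun a b =>
    on_cont fun d z hz hw => ((h a b).2.1 d z hz hw).2.1.continuousAt
  choose F f1 f2 using fun (a : ℕ) b => ((T b).lvl a).solve
    ((h a b).1.mono_measure (Measure.restrict_mono (sL b a) le_rfl))
    (fun d z hz hw => (h a b).2.1 d z hz (sL b a hw))
    (ne_top_of_le_ne_top hη ((lintegral_mono_set (sK b a)).trans (h a b).2.2.1))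
  have f3 : ∀ (a : ℕ) b, ∫⁻ x in (T b).L a, ENNReal.ofReal (normSq (Φ a x - F a b x) *
      Real.exp (-wt x)) ∂μ ≤ 10 * η := fun a b =>
    (setLIntegral_mono_ae' ((T b).L_open a).measurableSet (ae_of_all _ fun x hx =>
      ENNReal.ofReal_le_ofReal (mul_le_mul_of_nonneg_left (Real.exp_le_exp.2 (neg_le_neg
        (hwt b x (sL b a hx)))) (normSq_nonneg _)))).trans ((f2 a b).trans
      (mul_le_mul_right ((lintegral_mono_set (sK b a)).trans (h a b).2.2.1) 10))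
  have cF : ∀ (a : ℕ) b, ContinuousOn (F a b) ((T b).L a) := fun a b =>
    on_cont fun d z hz hw => (f1 a b d z hz hw).continuousAt
  have cn := continuous_normSq
  have f4 : ∀ (a : ℕ) b, ∫⁻ x in (T b).L a, ENNReal.ofReal (normSq (Γ x - F a b x) *
      Real.exp (-wt x)) ∂μ ≤ 2 * A + 20 * η := fun a b =>
    (tri ((T b).L_open a) (((cn.comp_continuousOn ((cΦ a b).sub (hΓ b))).mul (ce b)).mono (sL b a))
      (fun x _ => ⟨(Real.exp_pos _).le, le_rfl, le_rfl⟩)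
      ((lintegral_mono_set (sK b a)).trans (h a b).2.2.2) (f3 a b)).trans_eq (by ring)
  have hC : 2 * A + 20 * η ≠ ⊤ := ENNReal.add_ne_top.2
    ⟨ENNReal.mul_ne_top ENNReal.ofNat_ne_top hA, ENNReal.mul_ne_top ENNReal.ofNat_ne_top hη⟩
  obtain ⟨s, s1, s2⟩ := common (P := fun b s => ∃ G : M.X → ℂ,
    (D.On (T b).O fun d z => DifferentiableAt ℂ (D.rd G d) z) ∧
      ∀ y ∈ (T b).O, Tendsto (fun a => F (s a) b y) atTop (𝓝 (G y)))
    (fun b s hs => by
      obtain ⟨G, t, t1, t2⟩ := (T b).mont (S := fun a => (T b).L (s a)) (F := fun a => F (s a) b) hC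
        (cp b) (hΓ b) (fun y hy => ((T b).L_ev hy).imp fun V hV =>
          ⟨hV.1, hs.tendsto_atTop.eventually hV.2⟩) (fun a => f1 _ b) fun a => f4 _ b
      exact ⟨t, t1, G, t2⟩)
    fun b s t ht ⟨G, g1, g2⟩ => ⟨G, g1, fun y hy => (g2 y hy).comp ht.tendsto_atTop⟩
  choose G g1 g2 using s2
  have ev : ∀ b, ∀ x ∈ (T b).O, ∀ᶠ a in atTop, x ∈ (T b).L (s a) := fun b x hx =>
    let ⟨_, v1, v2⟩ := (T b).L_ev hx
    (s1.tendsto_atTop.eventually v2).mono fun _ ha => ha (mem_of_mem_nhds v1)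
  have g3 : ∀ b, ∫⁻ x in U b, ENNReal.ofReal (normSq (Γ x - G b x) * Real.exp (-wt x)) ∂μ ≤
      2 * A + 20 * η := fun b => (lintegral_mono' (Measure.restrict_mono_ae
        ((ae_restrict_iff' (T b).opU.measurableSet).1 (T b).ae)) le_rfl).trans
    (fatou (T b).opn (fun a => (T b).L_open (s a))
      (fun a => (cn.comp_continuousOn (((hΓ b).mono (sL b _)).sub (cF _ b))).mul
        ((ce b).mono (sL b _)))
      (fun x hx => ⟨ev b x hx, ((cn.tendsto _).comp ((g2 b x hx).const_sub _)).mul_const _⟩)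
      fun a => f4 _ b)
  choose k k1 k2 using fun b => (T b).ext wt Γ (G b) (cp b) (hΓ b) (g1 b)
    (ne_top_of_le_ne_top hC (g3 b))
  refine ⟨k, k1, fun b => (lintegral_congr_ae ((T b).ae.mono fun x hx => by
    rw [k2 b hx])).trans_le (g3 b), fun b c => ?_⟩
  refine (lintegral_mono' (Measure.restrict_mono_ae (t := (T b).O ∩ (T c).O) ?_) le_rfl).trans
    (fatou ((T b).opn.inter (T c).opn) (fun a => ((T b).L_open (s a)).inter ((T c).L_open (s a)))
      (g := fun a x => normSq (F (s a) b x - F (s a) c x) * Real.exp (-wt x))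
      (fun a => ?_) (fun x hx => ?_) fun a => ?_)
  · filter_upwards [(ae_restrict_iff' (T b).opU.measurableSet).1 (T b).ae,
      (ae_restrict_iff' (T c).opU.measurableSet).1 (T c).ae] with x h1 h2 h3
    exact ⟨h1 h3.1, h2 h3.2⟩
  · exact (cn.comp_continuousOn (((cF _ b).mono inter_subset_left).sub
      ((cF _ c).mono inter_subset_right))).mul ((ce b).mono fun x hx => sL b _ hx.1)
  · rw [k2 b hx.1, k2 c hx.2]
    exact ⟨(ev b x hx.1).and (ev c x hx.2),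
      ((cn.tendsto _).comp ((g2 b x hx.1).sub (g2 c x hx.2))).mul_const _⟩
  · exact (tri (((T b).L_open _).inter ((T c).L_open _)) (((cn.comp_continuousOn
      (((cΦ _ b).mono (sL b _)).sub (cF _ b))).mul ((ce b).mono (sL b _))).mono inter_subset_left)
      (fun x _ => ⟨(Real.exp_pos _).le, le_rfl, le_rfl⟩)
      ((lintegral_mono_set inter_subset_left).trans (f3 _ b))
      ((lintegral_mono_set inter_subset_right).trans (f3 _ c))).trans_eq (by ring)

theorem eta_off {k : ι → ℤ} {m : ℕ} {w : D.A → E n → ℂ} (hμ : ZL.IsEta D k m w μ) :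
    ∀ᵐ x ∂μ, x ∈ EXS.off D := by
  rw [← μ.restrict_univ, ← eq_univ_of_forall fun x => mem_iUnion.2 (ex_ch D x),
    ae_restrict_iUnion_iff]
  intro d
  rw [ae_iff, ← lintegral_indicator_one (s := {x | x ∉ EXS.off D}) (off_open D).measurableSet.compl,
    hμ d]
  refine lintegral_eq_zero_of_ae_eq_zero ((ae_restrict_iff' measurableSet_ball).2
    ((MON.off_ae (D.c d)).mono fun z h hz => ?_))
  beta_reduce
  rw [indicator_of_notMem (s := {x | x ∉ EXS.off D}) (fun h1 => h1 ((off_symm D hz).2 h)), mul_zero]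
  rfl

end Pool.Agent.Lib.K65
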